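import Mathlib
import Pool.Agent.Y105.RS.StmC
import Pool.Agent.Y291.RS.Niv

/-!
# Project RS (helper105), RS-EVT: many points are in macroscopic cycles
-/

set_option autoImplicit false
set_option linter.unusedSectionVars false

open Finset Equiv

namespace Pool.Agent.Y837.RS

open Pool.Agent.Y105.RS Pool.Agent.Y291.RS

section short

variable {V : Type} [Fintype V] [DecidableEq V]

lemma pow_eq_of_avoid (g : Perm V) (x y v : V) (hx : ¬ (swap x y * g).SameCycle v x)
    (hy : ¬ (swap x y * g).SameCycle v y) (n : ℕ) : (g ^ n) v = ((swap x y * g) ^ n) v := by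
  induction n with
  | zero => simp
  | succ n ih =>
    rw [pow_succ', pow_succ', Perm.mul_apply, Perm.mul_apply, ih]
    set w := ((swap x y * g) ^ n) v with hw
    have h1 : (swap x y * g).SameCycle v ((swap x y * g) w) :=
      ⟨(n + 1 : ℕ), by rw [zpow_natCast, pow_succ', Perm.mul_apply]⟩
    have h2 : (swap x y * g) w ≠ x := fun h => hx (by rw [h] at h1; exact h1)
    have h3 : (swap x y * g) w ≠ y := fun h => hy (by rw [h] at h1; exact h1)
    have h4 : g w = swap x y ((swap x y * g) w) := by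
      rw [Perm.mul_apply, swap_apply_self]
    rw [h4, swap_apply_of_ne_of_ne h2 h3]

lemma same_iff_nat (g : Perm V) (v w : V) : g.SameCycle v w ↔ ∃ n : ℕ, (g ^ n) v = w := by
  constructor
  · intro h
    obtain ⟨i, -, hi⟩ := h.exists_pow_eq'
    exact ⟨i, hi⟩
  · rintro ⟨n, hn⟩
    exact ⟨(n : ℤ), by rw [zpow_natCast, hn]⟩

lemma cl_eq_of_avoid (g : Perm V) (x y v : V) (hx : ¬ (swap x y * g).SameCycle v x)
    (hy : ¬ (swap x y * g).SameCycle v y) : cl (swap x y * g) v = cl g v := by
  unfold cl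
  refine Nat.card_congr (Equiv.subtypeEquivRight fun w => ?_)
  rw [same_iff_nat, same_iff_nat]
  simp only [pow_eq_of_avoid g x y v hx hy]

lemma card_cyc_le (g : Perm V) (x : V) (K : ℕ) :
    (univ.filter fun v => g.SameCycle v x ∧ cl g v ≤ K).card ≤ K := by
  rcases (univ.filter fun v => g.SameCycle v x ∧ cl g v ≤ K).eq_empty_or_nonempty with h | ⟨v, hv⟩
  · rw [h, card_empty]
    exact Nat.zero_le _
  · rw [mem_filter] at hv
    refine le_trans ?_ hv.2.2
    unfold cl
    rw [Nat.card_eq_fintype_card, Fintype.card_subtype]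
    apply card_le_card
    intro w hw
    rw [mem_filter] at hw ⊢
    exact ⟨mem_univ _, hv.2.1.trans hw.2.1.symm⟩

lemma small_swap [Nonempty V] (K : ℕ) (g : Perm V) (x y : V) :
    small K (swap x y * g) ≤ small K g + 2 * K / Fintype.card V := by
  have hn : (0 : ℝ) < Fintype.card V := by exact_mod_cast Fintype.card_pos
  unfold small
  rw [← add_div]
  apply div_le_div_of_nonneg_right _ hn.le
  rw [Nat.card_eq_fintype_card, Nat.card_eq_fintype_card, Fintype.card_subtype,
    Fintype.card_subtype]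
  have h1 : (univ.filter fun v => cl (swap x y * g) v ≤ K) ⊆
      (univ.filter fun v => cl g v ≤ K) ∪
      ((univ.filter fun v => (swap x y * g).SameCycle v x ∧ cl (swap x y * g) v ≤ K) ∪
      (univ.filter fun v => (swap x y * g).SameCycle v y ∧ cl (swap x y * g) v ≤ K)) := by
    intro v hv
    rw [mem_filter] at hv
    rw [mem_union, mem_union, mem_filter, mem_filter, mem_filter]
    by_cases hx : (swap x y * g).SameCycle v x
    · exact Or.inr (Or.inl ⟨mem_univ _, hx, hv.2⟩)
    · by_cases hy : (swap x y * g).SameCycle v y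
      · exact Or.inr (Or.inr ⟨mem_univ _, hy, hv.2⟩)
      · exact Or.inl ⟨mem_univ _, by rw [← cl_eq_of_avoid g x y v hx hy]; exact hv.2⟩
  have h2 := (card_le_card h1).trans ((card_union_le _ _).trans
    (Nat.add_le_add_left (card_union_le _ _) _))
  have h3 := card_cyc_le (swap x y * g) x K
  have h4 := card_cyc_le (swap x y * g) y K
  have h5 : (univ.filter fun v => cl (swap x y * g) v ≤ K).card ≤
      (univ.filter fun v => cl g v ≤ K).card + 2 * K := by omega
  exact_mod_cast h5

end short

theorem evt (h : S_SMALLW) : S_EVT := by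
  obtain ⟨C, hC, hS⟩ := h
  obtain ⟨m, hm1, hm2⟩ : ∃ m : ℕ, 12 * C ≤ m ∧ 2 ≤ m :=
    ⟨max 2 ⌈12 * C⌉₊, (Nat.le_ceil _).trans (by exact_mod_cast le_max_right _ _), le_max_left _ _⟩
  have hlog : 0 ≤ Real.log m := Real.log_nonneg (by exact_mod_cast (by omega : 1 ≤ m))
  refine ⟨12 * C + 144 * C ^ 2 * (Real.log m + 1) + 1, by positivity, ?_⟩
  intro V _ _ _ p τ hp hτ hcmp M K hK hA1 hA2
  set n : ℝ := (Fintype.card V : ℝ) with hn
  have hn1 : 1 ≤ n := by
    rw [hn]
    exact_mod_cast Fintype.card_pos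
  have hn0 : 0 < n := by linarith
  have hK1 : (1 : ℝ) ≤ K := by exact_mod_cast hK
  have hM0 : (0 : ℝ) < M := by
    refine lt_of_lt_of_le ?_ hA2
    positivity
  have hM1 : 1 ≤ M := by
    have : 0 < M := by exact_mod_cast hM0
    omega
  have hker : Ker (fun _ _ : V => 1 / (Fintype.card V : ℝ)) (1 / n) := by
    refine ⟨fun _ _ => by positivity, fun _ _ => le_refl _, fun _ => ?_⟩
    rw [sum_const, card_univ, nsmul_eq_mul, ← hn]
    field_simp
  obtain ⟨P, hP⟩ : ∃ P : ℝ → ℝ, ∀ u, P u =
      mean p M (fun w => if u ≤ small K (wp w) then (1 : ℝ) else 0) := ⟨_, fun _ => rfl⟩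
  have hP1 : ∀ u, P u ≤ 1 := by
    intro u
    rw [hP]
    refine le_trans (mean_mono hp (G := fun _ => 1) fun w => ?_) (mean_one hp M).le
    split_ifs <;> norm_num
  have hP0 : ∀ u, 0 ≤ P u := by
    intro u
    rw [hP]
    refine le_trans (mean_const hp M (0 : ℝ)).ge (mean_mono hp (F := fun _ => 0) fun w => ?_)
    split_ifs <;> norm_num
  have hd0 : 0 ≤ 2 * (K : ℝ) / n := by positivity
  have hle : ∀ (u : ℝ) (g : Perm V), (if u ≤ small K g then (1 : ℝ) else 0) ≤
      (if u - 2 * K / n ≤ small K g then (1 : ℝ) else 0) := by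
    intro u g
    by_cases h1 : u ≤ small K g
    · rw [if_pos h1, if_pos (by linarith)]
    · rw [if_neg h1]
      split_ifs <;> norm_num
  have hanti : ∀ u, P u ≤ P (u - 2 * K / n) := by
    intro u
    rw [hP, hP]
    exact mean_mono hp fun w => hle u (wp w)
  have hcoef : C * 1 * (1 / (m : ℝ) + K * (1 / n) +
      Real.sqrt ((1 + τ) * (n * Real.log m + n) / M)) ≤ 1 / 4 := by
    have hm0 : (0 : ℝ) < m := by exact_mod_cast (by omega : 0 < m)
    have e1 : C * (1 / (m : ℝ)) ≤ 1 / 12 := by
      rw [mul_one_div, div_le_iff₀ hm0]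
      linarith
    have e2 : C * (K * (1 / n)) ≤ 1 / 12 := by
      have : C * (K * (1 / n)) = C * K / n := by ring
      rw [this, div_le_iff₀ hn0]
      have h3 : 12 * C * K ≤ (12 * C + 144 * C ^ 2 * (Real.log m + 1) + 1) * K := by
        apply mul_le_mul_of_nonneg_right _ (by linarith)
        have : 0 ≤ 144 * C ^ 2 * (Real.log m + 1) := by positivity
        linarith
      linarith
    have e3 : C * Real.sqrt ((1 + τ) * (n * Real.log m + n) / M) ≤ 1 / 12 := by
      have h3 : Real.sqrt ((1 + τ) * (n * Real.log m + n) / M) ≤ 1 / (12 * C) := by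
        apply Real.sqrt_le_iff.2
        refine ⟨by positivity, ?_⟩
        rw [div_le_iff₀ hM0, div_pow, one_pow, one_div, ← div_eq_inv_mul,
          le_div_iff₀ (by positivity)]
        have h4 : 144 * C ^ 2 * (Real.log m + 1) * (1 + τ) * n ≤
            (12 * C + 144 * C ^ 2 * (Real.log m + 1) + 1) * (1 + τ) * n := by
          have h5 : 144 * C ^ 2 * (Real.log m + 1) ≤
            12 * C + 144 * C ^ 2 * (Real.log m + 1) + 1 := by linarith
          gcongr
        calc (1 + τ) * (n * Real.log m + n) * (12 * C) ^ 2 =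
            144 * C ^ 2 * (Real.log m + 1) * (1 + τ) * n := by ring
          _ ≤ _ := h4.trans hA2
      calc C * Real.sqrt ((1 + τ) * (n * Real.log m + n) / M) ≤ C * (1 / (12 * C)) := by gcongr
        _ = 1 / 12 := by field_simp
    calc _ = C * (1 / (m : ℝ)) + C * (K * (1 / n)) +
        C * Real.sqrt ((1 + τ) * (n * Real.log m + n) / M) := by ring
      _ ≤ 1 / 12 + 1 / 12 + 1 / 12 := by gcongr
      _ = 1 / 4 := by norm_num
  have step : ∀ u, 1 / 2 ≤ u → P u ≤ 1 / 2 * P (u - 2 * K / n) ∨ P u ≤ Real.exp (-n) := by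
    intro u hu
    by_cases hb : Real.exp (-n) ≤ P (u - 2 * K / n)
    · left
      have h1 := hS V p (fun _ _ => 1 / (Fintype.card V : ℝ)) (1 / n) τ hp hker hτ hcmp m M K hm2
        hM1 hK (fun g => if u ≤ small K g then (1 : ℝ) else 0)
        (fun g => if u - 2 * K / n ≤ small K g then (1 : ℝ) else 0) n 1
        (fun g => by show (0 : ℝ) ≤ (if u ≤ small K g then (1 : ℝ) else 0); split_ifs <;> norm_num)
        (hle u) (le_refl _) ?_ hn0.le ?_
      · rw [← hP] at h1
        have h2 : u * P u ≤ mean p M (fun w => (if u ≤ small K (wp w) then (1 : ℝ) else 0) *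
            small K (wp w)) := by
          rw [hP, ← mean_smul]
          apply mean_mono hp
          intro w
          by_cases h3 : u ≤ small K (wp w)
          · rw [if_pos h3]; linarith
          · rw [if_neg h3]; linarith
        have h4 : u * P u ≤ 1 / 4 * P (u - 2 * K / n) :=
          h2.trans (h1.trans (mul_le_mul_of_nonneg_right hcoef (hP0 _)))
        have h5 : 1 / 2 * P u ≤ u * P u := mul_le_mul_of_nonneg_right hu (hP0 _)
        linarith
      · intro g x y
        rw [one_mul]
        by_cases h1 : u ≤ small K (swap x y * g)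
        · have h2 := small_swap K g x y
          rw [if_pos h1, if_pos (by linarith)]
        · rw [if_neg h1]
          split_ifs <;> norm_num
      · intro g
        rw [← hP]
        have h1 : (1 : ℝ) ≤ Real.exp n * P (u - 2 * K / n) := by
          calc (1 : ℝ) = Real.exp n * Real.exp (-n) := by rw [← Real.exp_add]; simp
            _ ≤ _ := by gcongr
        refine le_trans ?_ h1
        split_ifs <;> norm_num
    · right
      exact (hanti u).trans (not_le.1 hb).le
  have iter : ∀ j : ℕ, (j : ℝ) ≤ n / (8 * K) →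
      P (3 / 4) ≤ Real.exp (-n) ∨ P (3 / 4) ≤ (1 / 2) ^ j * P (3 / 4 - 2 * K * j / n) := by
    intro j
    induction j with
    | zero =>
      intro _
      right
      simp
    | succ j ih =>
      intro hj
      push_cast at hj
      rcases ih (by linarith) with h1 | h1
      · exact Or.inl h1
      · have hj' : (j : ℝ) ≤ n / (8 * K) := by linarith
        have h2 : 1 / 2 ≤ 3 / 4 - 2 * (K : ℝ) * j / n := by
          have h3 : 2 * (K : ℝ) * j / n ≤ 1 / 4 := by
            rw [le_div_iff₀ (by positivity)] at hj'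
            rw [div_le_iff₀ hn0]
            linarith
          linarith
        rcases step _ h2 with h3 | h3
        · right
          have e : 3 / 4 - 2 * (K : ℝ) * ((j + 1 : ℕ) : ℝ) / n =
              3 / 4 - 2 * (K : ℝ) * j / n - 2 * K / n := by
            push_cast
            ring
          rw [e, pow_succ, mul_assoc]
          exact h1.trans (mul_le_mul_of_nonneg_left h3 (by positivity))
        · left
          refine h1.trans ?_
          have h4 : ((1 : ℝ) / 2) ^ j ≤ 1 := pow_le_one₀ (by norm_num) (by norm_num)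
          calc ((1 : ℝ) / 2) ^ j * P (3 / 4 - 2 * K * j / n) ≤ 1 * Real.exp (-n) := by
                apply mul_le_mul h4 h3 (hP0 _) (by norm_num)
            _ = Real.exp (-n) := one_mul _
  show mean p M (fun w => if (3 / 4 : ℝ) ≤ small K (wp w) then (1 : ℝ) else 0) ≤ _
  rw [← hP]
  have hx0 : 0 ≤ n / (8 * K) := by positivity
  have hpos : (0 : ℝ) < (1 / 2 : ℝ) ^ (n / (8 * K)) := Real.rpow_pos_of_pos (by norm_num) _
  rcases iter ⌊n / (8 * K)⌋₊ (Nat.floor_le hx0) with h1 | h1
  · linarith
  · have h2 : ((1 : ℝ) / 2) ^ ⌊n / (8 * K)⌋₊ ≤ 2 * (1 / 2 : ℝ) ^ (n / (8 * K)) := by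
      have h3 : (1 / 2 : ℝ) ^ (((⌊n / (8 * K)⌋₊ : ℕ) : ℝ) + 1) ≤ (1 / 2 : ℝ) ^ (n / (8 * K)) :=
        Real.rpow_le_rpow_of_exponent_ge (by norm_num) (by norm_num) (Nat.lt_floor_add_one _).le
      rw [Real.rpow_add (by norm_num), Real.rpow_natCast, Real.rpow_one] at h3
      linarith
    have h4 : ((1 : ℝ) / 2) ^ ⌊n / (8 * K)⌋₊ * P (3 / 4 - 2 * K * (⌊n / (8 * K)⌋₊ : ℕ) / n) ≤
        ((1 : ℝ) / 2) ^ ⌊n / (8 * K)⌋₊ * 1 :=
      mul_le_mul_of_nonneg_left (hP1 _) (by positivity)
    have h5 := Real.exp_pos (-n)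
    linarith

end Pool.Agent.Y837.RS
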